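import Pool.Agent.helper31.NU.P1

/-! Module P1 is proved (Pool/Agent/helper31/NU/P1.lean). -/
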