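import Pool.Agent.helper31.NU.PDefs

set_option autoImplicit false
set_option linter.all false

/-! Module P10 (stub): the generators `gC C`. -/

open MeasureTheory Filter Topology Set
open scoped ContDiff ComplexOrder

noncomputable section

namespace Pool.Agent.helper31.NU

open Pool.Agent.helper63.NU (E dz db lev)

variable {m : ℕ} {z : E m}

theorem SH_gC (C : Matrix (Fin m) (Fin m) ℂ) : SH (gC C) := sorry

theorem gC_add (C D : Matrix (Fin m) (Fin m) ℂ) (z : E m) : gC (C + D) z = gC C z + gC D z := sorry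

theorem gC_smul (c : ℝ) (C : Matrix (Fin m) (Fin m) ℂ) (z : E m) :
    gC ((c : ℂ) • C) z = c * gC C z := sorry

theorem gC_one (hz : z ≠ 0) : gC (1 : Matrix (Fin m) (Fin m) ℂ) z = 1 := sorry

theorem gC_conjTranspose (C : Matrix (Fin m) (Fin m) ℂ) (z : E m) :
    gC C.conjTranspose z = gC C z := sorry

/-- `P/r²` with `P = z^* C z` (`C` Hermitian): `∂_a∂̄_b P = C_{ba}`, ... -/
theorem LH_gC (C : Matrix (Fin m) (Fin m) ℂ) (hz : z ≠ 0) :
    LH (gC C) z = C.trace.re / m - gC C z := sorry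

theorem GH_gC {C D : Matrix (Fin m) (Fin m) ℂ} (hC : C.IsHermitian) (hD : D.IsHermitian)
    (hz : z ≠ 0) :
    GH (gC C) (gC D) z = (gC (C * D + D * C) z / 2 - gC C z * gC D z) / m := sorry

/-- `C = z z^*`: equality in Cauchy–Schwarz -/
theorem gC_sep {w : E m} (hz : z ≠ 0) (hw : w ≠ 0) (h : ∀ c : ℂ, c ≠ 0 → c • w ≠ z) :
    ∃ C : Matrix (Fin m) (Fin m) ℂ, C.IsHermitian ∧ gC C z ≠ gC C w := sorry

end Pool.Agent.helper31.NU
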