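import Pool.Agent.helper31.NU.PDefs
import Pool.Agent.helper63.NU.CPDefs

set_option autoImplicit false
set_option linter.all false

/-! Module P11 (stub): the Fubini–Study Hessian, its inverse and determinant; transformation
behaviour.  (`Pool.Agent.helper41.NU.A1` for `dz`, `db`.) -/

open MeasureTheory Filter Topology Set
open scoped ContDiff Manifold Matrix ENNReal ComplexOrder

noncomputable section

namespace Pool.Agent.helper63.NU

variable {n : ℕ}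

/-- `Θ_{jk} = δ_{jk}/(1+s) - conj y_j y_k/(1+s)²`, `s = ∑ |y_j|²` -/
theorem lev_fs (y : E n) (j k : Fin n) :
    lev (fun z => Real.log (1 + ∑ j, ‖z j‖ ^ 2)) y j k =
      ((if j = k then 1 else 0) * ((1 + ∑ l, ‖y l‖ ^ 2 : ℝ) : ℂ) -
        (starRingEnd ℂ) (y j) * y k) / ((1 + ∑ l, ‖y l‖ ^ 2 : ℝ) : ℂ) ^ 2 := sorry

/-- `Θ⁻¹ = (1+s)(δ_{kj} + conj y_k y_j)` -/
theorem lev_fs_inv (y : E n) (k j : Fin n) :
    (lev (fun z => Real.log (1 + ∑ j, ‖z j‖ ^ 2)) y)⁻¹ k j =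
      ((1 + ∑ l, ‖y l‖ ^ 2 : ℝ) : ℂ) * ((if k = j then 1 else 0) +
        (starRingEnd ℂ) (y k) * y j) := sorry

/-- `det Θ = (1+s)^{-(n+1)}` (matrix determinant lemma) -/
theorem det_lev_fs (y : E n) :
    (lev (fun z => Real.log (1 + ∑ j, ‖z j‖ ^ 2)) y).det =
      (((1 + ∑ l, ‖y l‖ ^ 2) ^ (n + 1) : ℝ) : ℂ)⁻¹ := sorry

/-- Cauchy–Schwarz -/
theorem lev_fs_posDef (y : E n) :
    (lev (fun z => Real.log (1 + ∑ j, ‖z j‖ ^ 2)) y).PosDef := sorry

theorem lev_wFS (e : Ch n (CP n)) (y : E n) :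
    lev (wFS n e) y = ((n + 1 : ℝ) : ℂ) • hFS n e y := sorry

end Pool.Agent.helper63.NU
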