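import Pool.Agent.helper31.NU.Stub.P11

set_option autoImplicit false
set_option linter.all false

/-! Module P12 (stub): the Fubini–Study metric is a Kähler metric in the anticanonical class. -/

open MeasureTheory Filter Topology Set
open scoped ContDiff Manifold Matrix ENNReal ComplexOrder

noncomputable section

namespace Pool.Agent.helper63.NU

variable {n : ℕ}

/-- `|jac (chart i) (chart i') y|² = |z_{i'}|^{-2(n+1)}`, `z = insertNth i 1 y`: the transition map
is `y ↦ (z_{succAbove i' j}/z_{i'})_j`.  (The Jacobian of projective maps is also offer NU-M0 of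
helper63.) -/
theorem isPos_wFS : IsPos 1 (wFS n) := sorry

/-- `dvFS` has the same expression in all charts (change of variables; the complement of a chart
is a null set) -/
theorem isDens_dvFS : IsDens (dvFS n) (wFS n) := sorry

theorem isVol_dvFS : IsVol (hFS n) (dvFS n) := sorry

theorem isKahler_hFS : IsKahler (hFS n) := sorry

theorem hFS_eq : ∀ e ∈ atlas (E n) (CP n), ∀ y ∈ e.target,
    hFS n e y = ((2 * (1 / (2 * ((n : ℝ) + 1))) : ℝ) : ℂ) • lev (wFS n e) y := sorry

theorem inClass_hFS : InClass (1 / (2 * ((n : ℝ) + 1))) (hFS n) := sorry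

theorem dl_wFS (x : CP n) : dl (wFS n) x = ((n : ℝ) + 1) ^ n := sorry

/-- `log det h = -(n+1) log (1 + |y|²)` -/
theorem scal_hFS (x : CP n) : scal (hFS n) x = 4 * n * (n + 1) := sorry

end Pool.Agent.helper63.NU
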