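import Pool.Agent.helper63.NU.CPDefs

set_option autoImplicit false
set_option linter.all false

/-! Module P13 (stub): the volume of `ℂP^n`. -/

open MeasureTheory Filter Topology Set
open scoped ContDiff Manifold Matrix ENNReal ComplexOrder

noncomputable section

namespace Pool.Agent.helper63.NU

variable {n : ℕ}

/-- `∫_{ℂ^n} (1 + |y|²)^{-(n+1)} dy = π^n/n!` (induction: `∫_ℂ (a + |w|²)^{-(n+1)} dw = (π/n) a^{-n}`,
or the layer cake formula and `Complex.volume_sum_rpow_lt`) -/
theorem dvFS_univ : dvFS n Set.univ = ENNReal.ofReal (Real.pi ^ n / n.factorial) := sorry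

end Pool.Agent.helper63.NU
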