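import Pool.Agent.helper31.NU.PDefs2

set_option autoImplicit false
set_option linter.all false

/-! Module P16 (stub): Green's formula on a compact Kähler–Einstein manifold. -/

open MeasureTheory Filter Topology Set
open scoped ContDiff Manifold Matrix ENNReal ComplexOrder

noncomputable section

namespace Pool.Agent.helper63.NU

variable {n : ℕ} {M : Type*} [TopologicalSpace M] [ChartedSpace (E n) M]
  [IsManifold 𝓘(ℂ, E n) ω M]
variable [CompactSpace M] [T2Space M]
variable [MeasurableSpace M] [BorelSpace M] {μ : Measure M} {φ : Fam n M ℝ}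

/-- `ip_box` (helper2/NU/B5) with `k = 0`, `ψ = φ`, `s = v`, `t = u`, and `box φ v = - lap φ v`
because `e^{-φ} = det (∂∂̄φ)/c` and `∑_j ∂_j (det Θ Θ⁻¹_{kj}) = 0` (`cof_div`, helper5/NU/H1). -/
theorem green_ke (hφ : IsPos 1 φ) (hμ : IsDens μ φ) {c : ℝ} (hc : ∀ x, dl φ x = c) {u v : M → ℝ}
    (hu : Sm n fun x => ((u x : ℝ) : ℂ)) (hv : Sm n fun x => ((v x : ℝ) : ℂ)) :
    ∫ x, u x * lap φ v x ∂μ = -∫ x, gr2 φ u v x ∂μ := sorry

end Pool.Agent.helper63.NU
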