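import Pool.Agent.helper31.NU.Stub.P8
import Pool.Agent.helper31.NU.Stub.P12
import Pool.Agent.helper31.NU.Stub.P16

set_option autoImplicit false
set_option linter.all false

/-! Module P14 (stub): functions on `ℂP^n` as homogeneous functions. -/

open MeasureTheory Filter Topology Set
open scoped ContDiff Manifold Matrix ENNReal ComplexOrder

noncomputable section

namespace Pool.Agent.helper31.NU

open Pool.Agent.helper63.NU

variable {n : ℕ}

open Classical in
/-- the homogeneous function on `ℂ^{n+1}` of a function on `ℂP^n` -/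
def lft (u : CP n → ℝ) (z : E (n + 1)) : ℝ := if h : z = 0 then 0 else u (CP.mk z h)

theorem lft_mk (u : CP n → ℝ) (z : E (n + 1)) (hz : z ≠ 0) : lft u z = u (CP.mk z hz) := by
  unfold lft; rw [dif_neg hz]

theorem sm_iff (u : CP n → ℝ) : Sm n (fun x => ((u x : ℝ) : ℂ)) ↔ SH (lft u) := sorry

/-- in the chart `i`, `z_i ≠ 0`: `ũ(z) = u_i((z_{succAbove i j}/z_i)_j)`; holomorphic chain rule for
`dz`, `db`; `∑_a ∂_aπ_j conj(∂_aπ_k) = (δ_{jk} + y_j conj y_k)/|z_i|²`; `lev_fs_inv` and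
`H2aux.lap_eq` (helper80/NU/H2) or the chart of `lap` directly -/
theorem lap_wFS {u : CP n → ℝ} (hu : SH (lft u)) (z : E (n + 1)) (hz : z ≠ 0) :
    lap (wFS n) u (CP.mk z hz) = LH (lft u) z := sorry

theorem gr2_wFS {u v : CP n → ℝ} (hu : SH (lft u)) (hv : SH (lft v)) (z : E (n + 1))
    (hz : z ≠ 0) : gr2 (wFS n) u v (CP.mk z hz) = GH (lft u) (lft v) z := sorry

theorem grad2_hFS {u : CP n → ℝ} (hu : SH (lft u)) (z : E (n + 1)) (hz : z ≠ 0) :
    grad2 (hFS n) u (CP.mk z hz) = 4 * (n + 1) * GH (lft u) (lft u) z := sorry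

end Pool.Agent.helper31.NU
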