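import Pool.Agent.helper31.NU.Stub.P1

set_option autoImplicit false
set_option linter.all false

/-! Module P7 (stub): LSI on `W^{1,2}`. -/

open MeasureTheory Filter Topology Set
open scoped ContDiff

noncomputable section

namespace Pool.Agent.helper31.NU

variable {M : Type*} [TopologicalSpace M] [CompactSpace M] [Nonempty M] [MeasurableSpace M]
  [BorelSpace M] {σ : Measure M} [IsProbabilityMeasure σ]
  {S : Set (M → ℝ)} {L : (M → ℝ) → M → ℝ} {Γ : (M → ℝ) → (M → ℝ) → M → ℝ} {n : ℝ}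

/-- `g_i = √(f_i² + ε_i)/norm`, `ε_i = 1/(i+1)`; `∫ g_i² → 1`, `∫ Γ(g_i) ≤ ∫ Γ(f_i)/norm²`; pass to
a subsequence with `f_i → u` a.e.; `x log x ≥ -1/e` and Fatou. -/
theorem Diff.lsi_lim (D : Diff σ S L Γ n) (hn : 0 < n)
    (hlsi : ∀ g ∈ S, (∀ x, 0 < g x) → ∫ x, g x ^ 2 ∂σ = 1 →
      ∫ x, g x ^ 2 * Real.log (g x ^ 2) ∂σ ≤ n * Real.log (1 + 4 * (∫ x, Γ g g x ∂σ) / n))
    {u : M → ℝ} (hu0 : ∀ x, 0 ≤ u x) (hu : MemLp u 2 σ) (hint : ∫ x, u x ^ 2 ∂σ = 1)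
    {f : ℕ → M → ℝ} (hf : ∀ i, f i ∈ S)
    (hlim : Tendsto (fun i => ∫ x, (f i x - u x) ^ 2 ∂σ) atTop (𝓝 0)) {D' : ℝ}
    (hD : Tendsto (fun i => ∫ x, Γ (f i) (f i) x ∂σ) atTop (𝓝 D')) :
    Integrable (fun x => 2 * u x ^ 2 * Real.log (u x)) σ ∧
    ∫ x, 2 * u x ^ 2 * Real.log (u x) ∂σ ≤ n * Real.log (1 + 4 * D' / n) := sorry

end Pool.Agent.helper31.NU
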