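import Pool.Agent.helper31.NU.PDefs

set_option autoImplicit false
set_option linter.all false

/-! Module P9 (stub): the pointwise Bochner inequality on `ℂP^{m-1}`, in homogeneous
coordinates.  Use `Pool.Agent.helper41.NU.A1` / `A2` for `dz`, `db`. -/

open MeasureTheory Filter Topology Set
open scoped ContDiff ComplexOrder

noncomputable section

namespace Pool.Agent.helper31.NU

open Pool.Agent.helper63.NU (E dz db lev)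

variable {m : ℕ} {F H K : E m → ℝ} {z : E m}

/-- Write `u = F`, `u_a = ∂_a u`, `r² = rr z`, `g = ∑_a u_a u_ā` (so `m Γ(u) = r² g`),
`Δ = ∑_a ∂_a∂̄_a` (`m L u = r² Δ u`).
Euler (differentiate `u(c z) = u(z)`): `∑_a z_a u_a = 0`; differentiate again:
`∑_a z_a u_{ab} = -u_b`, `∑_a z_a u_{a b̄} = 0`, and `g` is bihomogeneous of degree `(-1, -1)`:
`∑_b z_b ∂_b g = -g`, `∑ z̄_b ∂̄_b g = -g`.  So
`Δ(r² g) = m g + ∑ z_b ∂_b g + ∑ z̄_b ∂̄_b g + r² Δ g = (m - 2) g + r² Δ g`,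
`Δ g = ∑_{ab} (|u_{ab}|² + |u_{ab̄}|²) + 2 Re ∑_a u_ā ∂_a Δ u`,
`m² Γ(u, L u) = r² Re ∑_a u_ā ∂_a (r² Δ u) = r⁴ Re ∑_a u_ā ∂_a Δ u` (as `∑ z̄_a u_ā = 0`).  Hence
`m² (L Γ(u) - 2 Γ(u, L u)) = r² (m - 2) g + r⁴ ∑_{ab} (|u_{ab}|² + |u_{ab̄}|²)`.
(1) `∑_{ab} |u_{ab}|² ≥ 2 g / r²`: expand `∑_{ab} |u_{ab} + (u_a z̄_b + z̄_a u_b)/r²|² ≥ 0`;
(2) `∑_{ab} |u_{ab̄}|² ≥ (Δ u)²/(m-1)`: expand `∑ |u_{ab̄} - (Δu/(m-1)) (δ_{ab} - z̄_a z_b/r²)|² ≥ 0`.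
Total `≥ m r² g + r⁴ (Δ u)²/(m-1) = m² (Γ(u) + (L u)²/(m-1))`. -/
theorem CD_hom (hm : 2 ≤ m) (hF : SH F) (hz : z ≠ 0) :
    GH F F z + (LH F z) ^ 2 / ((m : ℝ) - 1) ≤ LH (GH F F) z - 2 * GH F (LH F) z := sorry

end Pool.Agent.helper31.NU
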