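import Pool.Agent.helper31.NU.Stub.P6
import Pool.Agent.helper31.NU.Stub.P7
import Pool.Agent.helper31.NU.Stub.P9
import Pool.Agent.helper31.NU.Stub.P10
import Pool.Agent.helper31.NU.Stub.P13
import Pool.Agent.helper31.NU.Stub.P14

set_option autoImplicit false
set_option linter.all false

/-! Module P15 (stub): assembly. -/

open MeasureTheory Filter Topology Set
open scoped ContDiff Manifold Matrix ENNReal ComplexOrder

noncomputable section

namespace Pool.Agent.helper31.NU

open Pool.Agent.helper63.NU

variable {n : ℕ}

/-- `ν(ℂP^n, g_FS) ≥ n log (n+1) - log n! - n` -/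
theorem nuFS_ge (n : ℕ) (hn : 0 < n) : (cval n : EReal) ≤ nu (hFS n) (dvFS n) := sorry

end Pool.Agent.helper31.NU
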