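import Pool.Agent.helper31.NU.Stub.P1

set_option autoImplicit false
set_option linter.all false

/-! Module P2 (stub): the derivative of the Fisher information along `L f`. -/

open MeasureTheory Filter Topology Set
open scoped ContDiff

noncomputable section

namespace Pool.Agent.helper31.NU

variable {M : Type*} [TopologicalSpace M] [CompactSpace M] [MeasurableSpace M] [BorelSpace M]
  {σ : Measure M} [IsProbabilityMeasure σ]
  {S : Set (M → ℝ)} {L : (M → ℝ) → M → ℝ} {Γ : (M → ℝ) → (M → ℝ) → M → ℝ} {n : ℝ}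

theorem Diff.ent_L (D : Diff σ S L Γ n) {f : M → ℝ} (hf : f ∈ S) (h0 : ∀ x, 0 < f x) :
    ∫ x, L f x * Real.log (f x) ∂σ = -∫ x, Γ f f x / f x ∂σ := sorry

/-- With `u = log f`: the left side is `∫ (2 Γ(u, L f) - Γ(u) L f) = -∫ f (L Γ(u) - 2 Γ(u, L u))`,
because `∫ Γ(u, L f) = -∫ L u L f = ∫ Γ(f, L u) = ∫ f Γ(u, L u)` and `∫ Γ(u) L f = ∫ f L Γ(u)`; use
`cd`, then `∫ f (L u)² ≥ (∫ f L u)²` (as `∫ f = 1`) and `∫ f L u = -∫ Γ(f, u) = -I`,
`∫ f Γ(u) = I`. -/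
theorem Diff.fisher_le (D : Diff σ S L Γ n) (hn : 0 < n) {f : M → ℝ} (hf : f ∈ S)
    (h0 : ∀ x, 0 < f x) (h1 : ∫ x, f x ∂σ = 1) :
    ∫ x, (2 * Γ f (L f) x / f x - Γ f f x * L f x / f x ^ 2) ∂σ ≤
      -(∫ x, Γ f f x / f x ∂σ) - (∫ x, Γ f f x / f x ∂σ) ^ 2 / n := sorry

end Pool.Agent.helper31.NU
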