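import Pool.Agent.helper31.NU.PDefs

set_option autoImplicit false
set_option linter.all false

/-! Module P3 (stub): derivatives of entropy and Fisher information along a curve (pure). -/

open MeasureTheory Filter Topology Set
open scoped ContDiff

noncomputable section

namespace Pool.Agent.helper31.NU

variable {M : Type*} [TopologicalSpace M] [CompactSpace M] [MeasurableSpace M] [BorelSpace M]
  {σ : Measure M} [IsProbabilityMeasure σ]

/-- The curve `(f + s g + C s²)/(1 + C s²)` has derivative `g` at `s = 0`.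
(`hasDerivAt_integral_of_dominated_loc_of_deriv_le`, everything is continuous on a compact set
and `f ≥ m > 0`.) -/
theorem hasDerivAt_ent {f g : M → ℝ} (hf : Continuous f) (hg : Continuous g)
    (h0 : ∀ x, 0 < f x) (C : ℝ) :
    HasDerivAt (fun s : ℝ => ∫ x, ((f x + s * g x + C * s ^ 2) / (1 + C * s ^ 2)) *
      Real.log ((f x + s * g x + C * s ^ 2) / (1 + C * s ^ 2)) ∂σ)
      (∫ x, g x * (Real.log (f x) + 1) ∂σ) 0 := sorry

theorem hasDerivAt_fisher {f g A B E : M → ℝ} (hf : Continuous f) (hg : Continuous g)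
    (hA : Continuous A) (hB : Continuous B) (hE : Continuous E) (h0 : ∀ x, 0 < f x) (C : ℝ) :
    HasDerivAt (fun s : ℝ => ∫ x, ((A x + 2 * s * B x + s ^ 2 * E x) / (1 + C * s ^ 2) ^ 2) /
      ((f x + s * g x + C * s ^ 2) / (1 + C * s ^ 2)) ∂σ)
      (∫ x, (2 * B x / f x - A x * g x / f x ^ 2) ∂σ) 0 := sorry

end Pool.Agent.helper31.NU
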