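import Pool.Agent.helper31.NU.Stub.P2
import Pool.Agent.helper31.NU.Stub.P3

set_option autoImplicit false
set_option linter.all false

/-! Module P4 (stub): the logarithmic Sobolev inequality on an invariant finite dimensional
space, static variational proof. -/

open MeasureTheory Filter Topology Set
open scoped ContDiff

noncomputable section

namespace Pool.Agent.helper31.NU

variable {M : Type*} [TopologicalSpace M] [CompactSpace M] [Nonempty M] [MeasurableSpace M]
  [BorelSpace M] {σ : Measure M} [IsProbabilityMeasure σ] [σ.IsOpenPosMeasure]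
  {S : Set (M → ℝ)} {L : (M → ℝ) → M → ℝ} {Γ : (M → ℝ) → (M → ℝ) → M → ℝ} {n : ℝ}

/-- For `c > 1` and `0 < ε < 1` put `G(f) = n log (1 + c I(f)/n) - Ent(f)` on the compact set
`K_ε = {f ∈ F, f ≥ ε, ∫ f = 1}` (`F` is finite dimensional; `K_ε` is closed and bounded, e.g.
because `∫ |f| = 1` and all norms are equivalent; `G` is continuous).  Let `f` be a minimiser and
`g = L f`.  `f + s g ≥ ε - s² ‖L g‖` for `s ≥ 0` by `D.min` at a minimum point of `f + s g`; so
with `C = ‖L g‖/(1 - ε)` the function `(f + s g + C s²)/(1 + C s²)` is in `K_ε` and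
`0 ≤ d/ds G` at `s = 0` (P3).  That derivative is `c D/(1 + c I/n) + I` with
`D ≤ - I - I²/n` (P2) and `ent_L`, so it is `≤ - (c - 1) I / (1 + c I/n)`: hence `I(f) = 0`, `f = 1`
(`D.conn`, open positive measure) and `G ≥ 0` on `K_ε`.  Then let `c → 1`.
(If `min f ≥ 1` then `f = 1`.) -/
theorem Diff.lsi_fin (D : Diff σ S L Γ n) (hn : 0 < n) {F : Submodule ℝ (M → ℝ)}
    [FiniteDimensional ℝ F] (hF : ∀ u ∈ F, u ∈ S) (hL : ∀ u ∈ F, L u ∈ F)
    (h1 : (fun _ => (1 : ℝ)) ∈ F) {f : M → ℝ} (hf : f ∈ F) (h0 : ∀ x, 0 < f x)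
    (hint : ∫ x, f x ∂σ = 1) :
    ∫ x, f x * Real.log (f x) ∂σ ≤ n * Real.log (1 + (∫ x, Γ f f x / f x ∂σ) / n) := sorry

end Pool.Agent.helper31.NU
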