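import Pool.Agent.helper31.NU.Stub.P1

set_option autoImplicit false
set_option linter.all false

/-! Module P5 (stub): the invariant finite dimensional spaces `G^k`; density. -/

open MeasureTheory Filter Topology Set
open scoped ContDiff

noncomputable section

namespace Pool.Agent.helper31.NU

variable {M : Type*} [TopologicalSpace M] [CompactSpace M] [Nonempty M] [MeasurableSpace M]
  [BorelSpace M] {σ : Measure M} [IsProbabilityMeasure σ] [σ.IsOpenPosMeasure]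
  {S : Set (M → ℝ)} {L : (M → ℝ) → M → ℝ} {Γ : (M → ℝ) → (M → ℝ) → M → ℝ} {n : ℝ}
  {G : Submodule ℝ (M → ℝ)}

/-- `Γ(g, p) ∈ G^{k+1}` for `g ∈ G`, `p ∈ G^k` by induction (`Gmul`), then
`L(g p) = g L p + p L g + 2 Γ(g, p)` (`Submodule.pow_succ`, `Submodule.mul_induction_on`). -/
theorem Diff.pow_space (D : Diff σ S L Γ n) [FiniteDimensional ℝ G] (hG : ∀ u ∈ G, u ∈ S)
    (h1 : (fun _ => (1 : ℝ)) ∈ G) (hL : ∀ u ∈ G, L u ∈ G)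
    (hΓ : ∀ u ∈ G, ∀ v ∈ G, Γ u v ∈ G * G) (k : ℕ) :
    FiniteDimensional ℝ (G ^ k : Submodule ℝ (M → ℝ)) ∧ (∀ u ∈ G ^ k, u ∈ S) ∧
      (∀ u ∈ G ^ k, L u ∈ G ^ k) ∧ (fun _ => (1 : ℝ)) ∈ G ^ k := sorry

/-- `h := g - L g`.  By Stone–Weierstrass there is `p ∈ G^k` with `|h - p| ≤ ε`.  `u ↦ u - L u` is
injective on `G^k` (`∫ u (u - L u) = ∫ u² + ∫ Γ(u)`), hence onto: `q - L q = p`.  `w = g - q`
satisfies `w - L w = h - p`, so at a maximum (minimum) point of `w`: `|w| ≤ ε` (`D.min`), and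
`∫ w² + ∫ Γ(w) = ∫ w (w - L w) ≤ ε²`. -/
theorem Diff.dense (D : Diff σ S L Γ n) [FiniteDimensional ℝ G] (hG : ∀ u ∈ G, u ∈ S)
    (h1 : (fun _ => (1 : ℝ)) ∈ G) (hL : ∀ u ∈ G, L u ∈ G)
    (hΓ : ∀ u ∈ G, ∀ v ∈ G, Γ u v ∈ G * G) (hsep : ∀ x y : M, x ≠ y → ∃ u ∈ G, u x ≠ u y)
    {g : M → ℝ} (hg : g ∈ S) {ε : ℝ} (hε : 0 < ε) :
    ∃ k, ∃ q ∈ G ^ k, (∀ x, |g x - q x| ≤ ε) ∧ ∫ x, Γ (g - q) (g - q) x ∂σ ≤ ε ^ 2 := sorry

end Pool.Agent.helper31.NU
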