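import Pool.Agent.helper31.NU.Stub.P4
import Pool.Agent.helper31.NU.Stub.P5

set_option autoImplicit false
set_option linter.all false

/-! Module P6 (stub): LSI for positive smooth functions. -/

open MeasureTheory Filter Topology Set
open scoped ContDiff

noncomputable section

namespace Pool.Agent.helper31.NU

variable {M : Type*} [TopologicalSpace M] [CompactSpace M] [Nonempty M] [MeasurableSpace M]
  [BorelSpace M] {σ : Measure M} [IsProbabilityMeasure σ] [σ.IsOpenPosMeasure]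
  {S : Set (M → ℝ)} {L : (M → ℝ) → M → ℝ} {Γ : (M → ℝ) → (M → ℝ) → M → ℝ} {n : ℝ}
  {G : Submodule ℝ (M → ℝ)}

/-- `q_i → g` (`Diff.dense` with `ε = 1/(i+1)`), `f_i = q_i²/∫ q_i² ∈ G^{2k}`, positive for large
`i`; `Γ(f_i)/f_i = 4 Γ(q_i)/∫ q_i²`; `lsi_fin` and pass to the limit
(`√∫Γ(q_i) ≤ √∫Γ(g) + ε_i`; uniform convergence of `q_i² log q_i²`). -/
theorem Diff.lsi_pos (D : Diff σ S L Γ n) (hn : 0 < n) [FiniteDimensional ℝ G]
    (hG : ∀ u ∈ G, u ∈ S) (h1 : (fun _ => (1 : ℝ)) ∈ G) (hL : ∀ u ∈ G, L u ∈ G)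
    (hΓ : ∀ u ∈ G, ∀ v ∈ G, Γ u v ∈ G * G) (hsep : ∀ x y : M, x ≠ y → ∃ u ∈ G, u x ≠ u y)
    {g : M → ℝ} (hg : g ∈ S) (h0 : ∀ x, 0 < g x) (hint : ∫ x, g x ^ 2 ∂σ = 1) :
    ∫ x, g x ^ 2 * Real.log (g x ^ 2) ∂σ ≤ n * Real.log (1 + 4 * (∫ x, Γ g g x ∂σ) / n) := sorry

end Pool.Agent.helper31.NU
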