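import Pool.Agent.helper31.NU.PDefs

set_option autoImplicit false
set_option linter.all false

/-! Module P8 (stub): calculus in the homogeneous model.
Use `Pool.Agent.helper41.NU.A1` (rules for `dz`, `db`) and `Pool.Agent.helper41.NU.A2`. -/

open MeasureTheory Filter Topology Set
open scoped ContDiff ComplexOrder

noncomputable section

namespace Pool.Agent.helper31.NU

open Pool.Agent.helper63.NU (E dz db lev)

variable {m : ℕ} {F H K : E m → ℝ} {z : E m}

theorem SH.const (c : ℝ) : SH (fun _ : E m => c) := sorry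

theorem SH.add (hF : SH F) (hH : SH H) : SH (F + H) := sorry

theorem SH.mul (hF : SH F) (hH : SH H) : SH (F * H) := sorry

theorem SH.comp (hF : SH F) {ψ : ℝ → ℝ} {U : Set ℝ} (hU : IsOpen U) (hψ : ContDiffOn ℝ ∞ ψ U)
    (h : ∀ z ≠ 0, F z ∈ U) : SH (fun z => ψ (F z)) := sorry

theorem SH.memL (hF : SH F) : SH (LH F) := sorry

theorem SH.memG (hF : SH F) (hH : SH H) : SH (GH F H) := sorry

theorem LH_congr (h : ∀ z ≠ 0, F z = H z) (hz : z ≠ 0) : LH F z = LH H z := sorry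

theorem GH_congr {F' H' : E m → ℝ} (h : ∀ z ≠ 0, F z = F' z) (h' : ∀ z ≠ 0, H z = H' z)
    (hz : z ≠ 0) : GH F H z = GH F' H' z := sorry

theorem LH_const (c : ℝ) (z : E m) : LH (fun _ => c) z = 0 := sorry

theorem LH_add (hF : SH F) (hH : SH H) (hz : z ≠ 0) : LH (F + H) z = LH F z + LH H z := sorry

theorem LH_mul (hF : SH F) (hH : SH H) (hz : z ≠ 0) :
    LH (F * H) z = F z * LH H z + H z * LH F z + 2 * GH F H z := sorry

theorem GH_const (c : ℝ) (hF : SH F) (z : E m) : GH (fun _ => c) F z = 0 := sorry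

/-- `db F = conj (dz F)` for real `F` -/
theorem GH_symm (F H : E m → ℝ) (z : E m) : GH F H z = GH H F z := sorry

theorem GH_add (hF : SH F) (hH : SH H) (hK : SH K) (hz : z ≠ 0) :
    GH (F + H) K z = GH F K z + GH H K z := sorry

theorem GH_mul (hF : SH F) (hH : SH H) (hK : SH K) (hz : z ≠ 0) :
    GH (F * H) K z = F z * GH H K z + H z * GH F K z := sorry

theorem GH_nonneg (F : E m → ℝ) (z : E m) : 0 ≤ GH F F z := sorry

theorem GH_comp (hF : SH F) (hH : SH H) {ψ : ℝ → ℝ} {U : Set ℝ} (hU : IsOpen U)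
    (hψ : ContDiffOn ℝ ∞ ψ U) (h : ∀ z ≠ 0, F z ∈ U) (hz : z ≠ 0) :
    GH (fun z => ψ (F z)) H z = deriv ψ (F z) * GH F H z := sorry

theorem LH_comp (hF : SH F) {ψ : ℝ → ℝ} {U : Set ℝ} (hU : IsOpen U)
    (hψ : ContDiffOn ℝ ∞ ψ U) (h : ∀ z ≠ 0, F z ∈ U) (hz : z ≠ 0) :
    LH (fun z => ψ (F z)) z = deriv ψ (F z) * LH F z + deriv (deriv ψ) (F z) * GH F F z := sorry

/-- at a minimum point the Laplacian is nonnegative: `∂_a∂̄_a F` is a quarter of the Laplacian of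
`t ↦ F(z + t e_a)`, `t ∈ ℂ` -/
theorem LH_min (hF : SH F) (hz : z ≠ 0) (h : ∀ w ≠ 0, F z ≤ F w) : 0 ≤ LH F z := sorry

/-- `∂F = 0` on the connected set `ℂ^m ∖ 0` -/
theorem GH_conn (hm : 2 ≤ m) (hF : SH F) (h : ∀ z ≠ 0, GH F F z = 0) {w : E m} (hz : z ≠ 0)
    (hw : w ≠ 0) : F z = F w := sorry

end Pool.Agent.helper31.NU
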